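import Pool.Agent.H24.Per3

set_option autoImplicit false

namespace Pool.Agent.Results.MP_ce2681_lc.FixedPeriod
open Pool.Agent.H11.PT Pool.Agent.H24.Per

theorem result : ∀ p : ℕ, 1 ≤ p → ∃ f : Inp → ℕ, PolyTime bits bits f ∧
    ∀ y, Valid p y → IsLeast {τ | Cov p y τ} (f y) :=
  fun p hp => ⟨alg p, (pt_alg p).polyTime, fun _ hy => main hp hy⟩

end Pool.Agent.Results.MP_ce2681_lc.FixedPeriod
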