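import Pool.Agent.H24.Per4

set_option autoImplicit false

namespace Pool.Agent.Results.MP_ce2681_lc.NPHard
open Pool.Agent.H11.PT Pool.Agent.H24.Per

theorem result : NPHard fun z : Inp × ℕ => (Valid z.1.2.2.length z.1 ∧
    ∀ v, ((gr z.1.1.1 z.1.1.2).neighborSet v).ncard ≤ 3) ∧ Cov z.1.2.2.length z.1 z.2 := hard

end Pool.Agent.Results.MP_ce2681_lc.NPHard
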